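import Mathlib
import Pool.Agent.Lib.MP_b75ab8_co_Sub.Count
import Pool.Agent.Lib.MP_b75ab8_co.Defs

/-!
A subexponential upper bound for the linear piercing constant in every dimension.
-/

set_option autoImplicit false

namespace Pool.Agent.MP_b75ab8_co.SubUpper

open Finset Filter Topology
open Pool.Agent.MP_b75ab8_co Pool.Agent.MP_b75ab8_co.Sub

/-- A leader structure with `D` players restricts to one with `d ≤ D` players (`d ≥ 2`). -/
theorem restrict_isLeader {D d : ℕ} (hd : 2 ≤ d) (hdD : d ≤ D) {Ω : Type} (hΩ : Nonempty Ω)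
    {acc : Fin D → Ω → Fin D → Ω → Prop} (hacc : IsLeader acc) :
    ∃ acc' : Fin d → Ω → Fin d → Ω → Prop, IsLeader acc' := by
  classical
  obtain ⟨w0⟩ := hΩ
  let e : Fin d → Fin D := Fin.castLE hdD
  have he : Function.Injective e := Fin.castLE_injective hdD
  let ext : (Fin d → Ω) → (Fin D → Ω) := fun y l => if h : (l : ℕ) < d then y ⟨l, h⟩ else w0
  have hext : ∀ y i, ext y (e i) = y i := by
    intro y i
    have h : ((e i : Fin D) : ℕ) < d := i.2
    simp only [ext, dif_pos h]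
    rfl
  have hout : ∀ (y : Fin d → Ω) (l : Fin D), d ≤ (l : ℕ) → ext y l = w0 := by
    intro y l hl
    simp only [ext, dif_neg (not_lt.2 hl)]
  let acc' : Fin d → Ω → Fin d → Ω → Prop := fun i w j u =>
    acc (e i) w (e j) u ∧ ∀ l : Fin D, d ≤ (l : ℕ) → acc (e i) w l w0
  have key : ∀ y i, Happy acc' y i ↔ Happy acc (ext y) (e i) := by
    intro y i
    constructor
    · intro h l hl
      by_cases hld : (l : ℕ) < d
      · obtain ⟨j, rfl⟩ : ∃ j : Fin d, e j = l := ⟨⟨l, hld⟩, Fin.ext rfl⟩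
        have hne : j ≠ i := fun h' => hl (by rw [h'])
        have := (h j hne).1
        rw [hext, hext]
        exact this
      · obtain ⟨j, hj⟩ : ∃ j : Fin d, j ≠ i := by
          have : Nontrivial (Fin d) := Fin.nontrivial_iff_two_le.2 hd
          exact exists_ne i
        have := (h j hj).2 l (not_lt.1 hld)
        rw [hext, hout y l (not_lt.1 hld)]
        exact this
    · intro h j hj
      refine ⟨?_, fun l hl => ?_⟩
      · have := h (e j) (fun h' => hj (he h'))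
        rwa [hext, hext] at this
      · have hne : l ≠ e i := by
          rintro rfl
          exact absurd hl (not_le.2 i.2)
        have := h l hne
        rwa [hext, hout y l hl] at this
  refine ⟨acc', ⟨?_, ?_⟩⟩
  · intro y i j hi hj
    exact he (hacc.unique _ _ _ ((key y i).1 hi) ((key y j).1 hj))
  · intro y i
    obtain ⟨w, hw⟩ := hacc.exists_happy (ext y) (e i)
    refine ⟨w, (key _ _).2 ?_⟩
    have hupd : ext (Function.update y i w) = Function.update (ext y) (e i) w := by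
      funext l
      by_cases hld : (l : ℕ) < d
      · obtain ⟨j, rfl⟩ : ∃ j : Fin d, e j = l := ⟨⟨l, hld⟩, Fin.ext rfl⟩
        rw [hext]
        by_cases hji : j = i
        · subst hji
          simp
        · rw [Function.update_of_ne hji, Function.update_of_ne (fun h' => hji (he h')), hext]
      · have hne : l ≠ e i := by
          rintro rfl
          exact hld i.2
        rw [hout _ l (not_lt.1 hld), Function.update_of_ne hne, hout _ l (not_lt.1 hld)]
    rw [hupd]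
    exact hw

/-- The arithmetic: `d · 2 ^ (128 (b + 1) ^ 2 * 4 ^ b) ≤ exp (6000 d ^ (2/3) (log d) ^ 2)` if
`8 ^ (b - 1) < d`, `d ≥ 2`. -/
theorem arith {d b : ℕ} (hd : 2 ≤ d) (hb1 : 1 ≤ b) (hb : 8 ^ (b - 1) < d) :
    (d : ℝ) * 2 ^ (128 * (b + 1) ^ 2 * 4 ^ b) ≤
      Real.exp (6000 * (d : ℝ) ^ (2 / 3 : ℝ) * (Real.log d) ^ 2) := by
  obtain ⟨a, rfl⟩ : ∃ a, b = a + 1 := ⟨b - 1, by omega⟩
  rw [Nat.add_sub_cancel] at hb
  have hd0 : (0 : ℝ) < d := by
    have : 0 < d := by omega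
    exact_mod_cast this
  have hd2 : (2 : ℝ) ≤ d := by exact_mod_cast hd
  have hl2 : Real.log 2 ≤ Real.log d := Real.log_le_log (by norm_num) hd2
  have hlog2 : 0.6931471803 < Real.log 2 := Real.log_two_gt_d9
  have hlog2' : Real.log 2 < 0.6931471808 := Real.log_two_lt_d9
  set L : ℝ := Real.log d with hL
  set M : ℝ := (d : ℝ) ^ (2 / 3 : ℝ) with hM
  have hM1 : 1 ≤ M := Real.one_le_rpow (by linarith) (by norm_num)
  -- `4 ^ a ≤ M`
  have h4 : (4 : ℝ) ^ a ≤ M := by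
    have h8 : ((8 : ℝ) ^ a) ≤ d := by exact_mod_cast hb.le
    have h1 : ((8 : ℝ) ^ a) ^ (2 / 3 : ℝ) ≤ M :=
      Real.rpow_le_rpow (by positivity) h8 (by norm_num)
    have h2 : ((8 : ℝ) ^ a) ^ (2 / 3 : ℝ) = 4 ^ a := by
      rw [← Real.rpow_natCast, ← Real.rpow_mul (by norm_num),
        show (8 : ℝ) = 2 ^ (3 : ℝ) by norm_num, ← Real.rpow_mul (by norm_num),
        show (3 : ℝ) * ((a : ℝ) * (2 / 3)) = 2 * a by ring, Real.rpow_mul (by norm_num),
        Real.rpow_natCast]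
      norm_num
    rw [h2] at h1
    exact h1
  -- `a log 8 ≤ L`
  have ha : (a : ℝ) * (3 * Real.log 2) ≤ L := by
    have h8 : ((8 : ℝ) ^ a) ≤ d := by exact_mod_cast hb.le
    have h1 := Real.log_le_log (by positivity) h8
    rw [Real.log_pow, show (8 : ℝ) = 2 ^ 3 by norm_num, Real.log_pow] at h1
    push_cast at h1
    exact h1
  -- `a + 2 ≤ 3.3667 L`
  have hL0 : 0 < L := by linarith
  have ha2 : (a : ℝ) + 2 ≤ 3.3667 * L := by
    nlinarith
  have ha0 : (0 : ℝ) ≤ a := Nat.cast_nonneg a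
  have hsq : ((a : ℝ) + 2) ^ 2 ≤ 11.335 * L ^ 2 := by
    nlinarith
  rw [← Real.log_le_iff_le_exp (by positivity), Real.log_mul (by positivity) (by positivity),
    Real.log_pow]
  push_cast
  have hexp : (128 * ((a : ℝ) + 1 + 1) ^ 2 * 4 ^ (a + 1)) * Real.log 2 ≤
      5990 * M * L ^ 2 := by
    have h1 : (128 * ((a : ℝ) + 1 + 1) ^ 2 * 4 ^ (a + 1)) = 512 * (((a : ℝ) + 2) ^ 2 * 4 ^ a) := by
      rw [pow_succ]; ring
    rw [h1]
    have h2 : ((a : ℝ) + 2) ^ 2 * 4 ^ a ≤ (11.335 * L ^ 2) * M := by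
      gcongr
    have h3 : 0 ≤ (11.335 * L ^ 2) * M := by positivity
    calc 512 * (((a : ℝ) + 2) ^ 2 * 4 ^ a) * Real.log 2
        ≤ 512 * ((11.335 * L ^ 2) * M) * 0.6931471808 := by gcongr
      _ ≤ 5990 * M * L ^ 2 := by nlinarith
  have hlin : L ≤ 10 * M * L ^ 2 := by
    have h1 : 1 ≤ 10 * M * L := by nlinarith
    nlinarith
  calc L + 128 * ((a : ℝ) + 1 + 1) ^ 2 * 4 ^ (a + 1) * Real.log 2
      ≤ 10 * M * L ^ 2 + 5990 * M * L ^ 2 := add_le_add hlin hexp
    _ = 6000 * M * L ^ 2 := by ring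

theorem exists_family (d : ℕ) (hd : 2 ≤ d) :
    ∃ N : ℕ, (d : ℝ) * N ≤ Real.exp (6000 * (d : ℝ) ^ (2 / 3 : ℝ) * (Real.log d) ^ 2) ∧
      ∀ k n : ℕ, 1 ≤ k → N * k ≤ n →
        ∃ P : Finset (Fin d → Finset (Fin n)), IsBoxPartition P ∧ IsPiercing k P ∧
          P.card ≤ d * N * k + N ^ d := by
  classical
  set b := Nat.clog 8 d with hb
  have hb1 : 1 ≤ b := Nat.clog_pos (by norm_num) hd
  have hdb : d ≤ 8 ^ b := Nat.le_pow_clog (by norm_num) d
  have hbd : 8 ^ (b - 1) < d := Nat.pow_pred_clog_lt_self (by norm_num) hd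
  obtain ⟨Ω, hfin, acc, hne, hacc, hcard⟩ := exists_isLeader b
  obtain ⟨acc', hacc'⟩ := restrict_isLeader hd hdb hne hacc
  refine ⟨Fintype.card Ω, ?_, fun k n hk hn => ?_⟩
  · refine le_trans ?_ (arith hd hb1 hbd)
    gcongr
    exact_mod_cast hcard
  · obtain ⟨P, h1, h2, h3, h4⟩ := exists_partition (n := n) hne hacc' hk hn
    exact ⟨P, ⟨h1, h2⟩, h3, h4⟩

theorem const_le (d : ℕ) (hd : 2 ≤ d) (q : ℕ → ℕ) (C : ℝ)
    (hq : ∀ k, 2 ≤ k → ∀ᶠ n in atTop, pNum n d k = q k)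
    (hC : Tendsto (fun k : ℕ => (q k : ℝ) / k) atTop (𝓝 C)) :
    C ≤ Real.exp (6000 * (d : ℝ) ^ (2 / 3 : ℝ) * (Real.log d) ^ 2) := by
  obtain ⟨N, hN, hfam⟩ := exists_family d hd
  refine le_trans ?_ hN
  have hbound : ∀ k, 2 ≤ k → (q k : ℝ) / k ≤ (d : ℝ) * N + (N : ℝ) ^ d / k := by
    intro k hk
    obtain ⟨n, hn1, hn2⟩ := ((hq k hk).and (eventually_ge_atTop (N * k))).exists
    obtain ⟨P, hP1, hP2, hP3⟩ := hfam k n (by omega) hn2
    have h : pNum n d k ≤ P.card := Nat.sInf_le ⟨P, hP1, hP2, rfl⟩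
    rw [hn1] at h
    have h' : (q k : ℝ) ≤ (d : ℝ) * N * k + (N : ℝ) ^ d := by exact_mod_cast h.trans hP3
    have hk0 : (0 : ℝ) < k := by
      have : 0 < k := by omega
      exact_mod_cast this
    rw [div_le_iff₀ hk0, add_mul, div_mul_cancel₀ _ hk0.ne']
    exact h'
  have hlim : Tendsto (fun k : ℕ => (d : ℝ) * N + (N : ℝ) ^ d / (k : ℝ)) atTop
      (𝓝 ((d : ℝ) * N + 0)) :=
    tendsto_const_nhds.add (tendsto_const_div_atTop_nhds_zero_nat _)
  rw [add_zero] at hlim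
  refine le_of_tendsto_of_tendsto hC hlim ?_
  filter_upwards [eventually_ge_atTop 2] with k hk
  exact hbound k hk

end Pool.Agent.MP_b75ab8_co.SubUpper
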